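import Pool.Agent.Run7.h41.NF.Iface

set_option autoImplicit false

/-!
# Project NF: the Whitehead graph is a cycle (CYC)
-/

namespace Run7.h842.NF

open Run7.h41.NF
open Run7.h955 (Ev Thru Ins am cj)

/-- The letters in cyclic order. -/
def cc (n j : ℕ) : Lt n := (Fin.ofNat (n + 2) (j / 2), decide (j % 2 = 0))

lemma ofNat_eq_iff (n a b : ℕ) :
    Fin.ofNat (n + 2) a = Fin.ofNat (n + 2) b ↔ a % (n + 2) = b % (n + 2) := by
  constructor
  · intro h
    exact congrArg Fin.val h
  · intro h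
    exact Fin.ext h

lemma cc_eq_iff (n i j : ℕ) :
    cc n i = cc n j ↔ (i / 2) % (n + 2) = (j / 2) % (n + 2) ∧ i % 2 = j % 2 := by
  unfold cc
  rw [Prod.mk.injEq, ofNat_eq_iff]
  refine and_congr Iff.rfl ?_
  rw [decide_eq_decide]
  omega

lemma cc_period (n j : ℕ) : cc n (j + NN n) = cc n j := by
  rw [cc_eq_iff]
  unfold NN
  refine ⟨?_, by omega⟩
  have : (j + 2 * (n + 2)) / 2 = j / 2 + (n + 2) := by omega
  rw [this, Nat.add_mod_right]

lemma cc_ne (n j k : ℕ) (h1 : 1 ≤ k) (h2 : k < NN n) : cc n (j + k) ≠ cc n j := by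
  intro h
  rw [cc_eq_iff] at h
  obtain ⟨ha, hb⟩ := h
  unfold NN at h2
  obtain ⟨m, hm⟩ : ∃ m, k = 2 * m := ⟨k / 2, by omega⟩
  subst hm
  have e : (j + 2 * m) / 2 = j / 2 + m := by omega
  rw [e] at ha
  have h3 : j / 2 + m ≡ j / 2 + 0 [MOD (n + 2)] := by
    simpa [Nat.ModEq] using ha
  have h4 : m ≡ 0 [MOD (n + 2)] := Nat.ModEq.add_left_cancel' _ h3
  have h5 : (n + 2) ∣ m := (Nat.modEq_zero_iff_dvd).1 h4
  have h6 := Nat.le_of_dvd (by omega) h5
  omega

lemma cc_surj (n : ℕ) (t : Lt n) : ∃ j, j < NN n ∧ cc n j = t := by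
  obtain ⟨a, b⟩ := t
  have ha := a.isLt
  cases b with
  | true =>
    refine ⟨2 * a.val, by unfold NN; omega, ?_⟩
    unfold cc
    rw [Prod.mk.injEq]
    refine ⟨?_, by simp⟩
    apply Fin.ext
    show (2 * a.val / 2) % (n + 2) = a.val
    rw [Nat.mul_div_cancel_left _ (by norm_num), Nat.mod_eq_of_lt ha]
  | false =>
    refine ⟨2 * a.val + 1, by unfold NN; omega, ?_⟩
    unfold cc
    rw [Prod.mk.injEq]
    refine ⟨?_, by simp⟩
    apply Fin.ext
    show ((2 * a.val + 1) / 2) % (n + 2) = a.val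
    have : (2 * a.val + 1) / 2 = a.val := by omega
    rw [this, Nat.mod_eq_of_lt ha]

lemma lt_period (n r : ℕ) : lt n (r + NN n) = lt n r := by
  unfold lt
  rw [Prod.mk.injEq]
  refine ⟨?_, rfl⟩
  rw [ofNat_eq_iff]
  unfold NN
  have : (r + 2 * (n + 2)) / 2 = r / 2 + (n + 2) := by omega
  rw [this, Nat.add_mod_right]

lemma edge_even (n r : ℕ) (h : r % 2 = 0) : op (lt n r) = cc n (r + 1) ∧ lt n (r + 1) = cc n r := by
  have e : (r + 1) / 2 = r / 2 := by omega
  have e2 : ¬ (r + 1) % 2 = 0 := by omega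
  constructor
  · simp [op, lt, cc, e, e2]
  · simp [lt, cc, e, h]

lemma edge_odd (n r : ℕ) (h : r % 2 = 1) : op (lt n r) = cc n r ∧ lt n (r + 1) = cc n (r + 1) := by
  have e2 : (r + 1) % 2 = 0 := by omega
  constructor
  · simp [op, lt, cc, h]
  · simp [lt, cc, e2]

theorem t_CYC : S_CYC := by
  intro n s0 P h1 h2
  by_contra hcon
  push Not at hcon
  -- all indices
  have hall : ∀ q r : ℕ, r < NN n → op (lt n (r + q * NN n)) ≠ s0 → lt n (r + q * NN n + 1) ≠ s0 →
      (P (op (lt n (r + q * NN n))) ↔ P (lt n (r + q * NN n + 1))) := by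
    intro q
    induction q with
    | zero =>
      intro r hr ha hb
      simp only [zero_mul, add_zero] at ha hb ⊢
      have := hcon r hr ha hb
      tauto
    | succ q ih =>
      intro r hr
      have e1 : r + (q + 1) * NN n = (r + q * NN n) + NN n := by ring
      have e2 : r + (q + 1) * NN n + 1 = (r + q * NN n + 1) + NN n := by ring
      rw [e2, e1, lt_period, lt_period]
      exact ih r hr
  have hall' : ∀ r : ℕ, op (lt n r) ≠ s0 → lt n (r + 1) ≠ s0 →
      (P (op (lt n r)) ↔ P (lt n (r + 1))) := by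
    intro r
    have hN : 0 < NN n := by unfold NN; omega
    have := hall (r / NN n) (r % NN n) (Nat.mod_lt _ hN)
    rwa [Nat.mod_add_div' r (NN n)] at this
  have hstep : ∀ r : ℕ, cc n r ≠ s0 → cc n (r + 1) ≠ s0 → (P (cc n r) ↔ P (cc n (r + 1))) := by
    intro r ha hb
    have h := hall' r
    rcases Nat.mod_two_eq_zero_or_one r with hr | hr
    · obtain ⟨e1, e2⟩ := edge_even n r hr
      rw [e1, e2] at h
      exact (h hb ha).symm
    · obtain ⟨e1, e2⟩ := edge_odd n r hr
      rw [e1, e2] at h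
      exact h ha hb
  obtain ⟨j0, hj0, rfl⟩ := cc_surj n s0
  have hchain : ∀ k : ℕ, k + 1 < NN n → (P (cc n (j0 + 1)) ↔ P (cc n (j0 + (k + 1)))) := by
    intro k
    induction k with
    | zero => intro _; exact Iff.rfl
    | succ k ih =>
      intro hk
      have h3 := ih (by omega)
      have h4 := hstep (j0 + (k + 1)) (cc_ne n j0 (k + 1) (by omega) (by omega))
        (cc_ne n j0 (k + 2) (by omega) hk)
      exact h3.trans h4
  have hfin : ∀ t, t ≠ cc n j0 → (P (cc n (j0 + 1)) ↔ P t) := by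
    intro t ht
    obtain ⟨j, hj, rfl⟩ := cc_surj n t
    have hne : j ≠ j0 := fun h => ht (by rw [h])
    rcases Nat.lt_or_ge j j0 with h | h
    · have h5 := hchain (j + NN n - j0 - 1) (by omega)
      have e : j0 + (j + NN n - j0 - 1 + 1) = j + NN n := by omega
      rw [e, cc_period] at h5
      exact h5
    · have h5 := hchain (j - j0 - 1) (by omega)
      have e : j0 + (j - j0 - 1 + 1) = j := by omega
      rw [e] at h5
      exact h5
  obtain ⟨t, ht, hP⟩ := h1
  obtain ⟨u, hu, hQ⟩ := h2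
  exact hQ ((hfin u hu).1 ((hfin t ht).2 hP))

end Run7.h842.NF
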