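import Pool.Agent.Run7.h41.NF.Iface

set_option autoImplicit false

/-!
# Project NF: finite coboundaries (FCB)
-/

namespace Run7.h842.NF

open Run7.h41.NF
open Run7.h955 (Ev Thru Ins am cj)

variable {n : ℕ}

lemma el_op (s : Lt n) : el (op s) = (el s)⁻¹ := by
  simp [el, op, FreeGroup.inv_mk, FreeGroup.invRev]

lemma fcb1 (A : Set (FG n)) (h : ∀ t : Lt n, {x | ¬ (x * el t ∈ A ↔ x ∈ A)}.Finite) : FC A := by
  have key : ∀ L : List (Lt n), {x : FG n | ¬ (x * FreeGroup.mk L ∈ A ↔ x ∈ A)}.Finite := by
    intro L
    induction L with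
    | nil =>
      have : {x : FG n | ¬ (x * FreeGroup.mk [] ∈ A ↔ x ∈ A)} = ∅ := by
        ext x
        simp [← FreeGroup.one_eq_mk]
      rw [this]
      exact Set.finite_empty
    | cons t L ih =>
      have e : (FreeGroup.mk (t :: L) : FG n) = el t * FreeGroup.mk L := by
        simp [el, FreeGroup.mul_mk]
      have hpre : {x : FG n | ¬ ((x * el t) * FreeGroup.mk L ∈ A ↔ x * el t ∈ A)}.Finite :=
        ih.preimage (f := fun x => x * el t) (fun a _ b _ hab => mul_right_cancel hab)
      refine (hpre.union (h t)).subset ?_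
      intro x hx
      simp only [Set.mem_ofPred_eq, e, ← mul_assoc] at hx
      simp only [Set.mem_union, Set.mem_ofPred_eq]
      by_contra hcon
      push Not at hcon
      exact hx (hcon.1.trans hcon.2)
  intro s
  have := key s.toWord
  rwa [FreeGroup.mk_toWord] at this

theorem t_FCB : S_SH → S_FCB := by
  intro hSH n
  refine ⟨fcb1, ?_, ?_, ?_, ?_⟩
  · intro A hA s
    refine (hA s).subset ?_
    intro x hx
    simp only [Set.mem_ofPred_eq, Set.mem_compl_iff] at hx ⊢
    tauto
  · intro g A hA s
    have := (hA s).preimage (f := fun x => g⁻¹ * x) (fun a _ b _ hab => mul_left_cancel hab)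
    refine this.subset ?_
    intro x hx
    simp only [tr, Set.mem_ofPred_eq, Set.mem_preimage, mul_assoc] at hx ⊢
    exact hx
  · intro φ A hA s
    have := (hA (φ⁻¹ s)).preimage (f := fun x => φ⁻¹ x) (fun a _ b _ hab => φ⁻¹.injective hab)
    refine this.subset ?_
    intro x hx
    simp only [im, Set.mem_ofPred_eq, Set.mem_preimage, map_mul] at hx ⊢
    exact hx
  · intro v s
    obtain ⟨-, -, -, -, -, hent, -⟩ := hSH n
    refine fcb1 _ (fun t => ?_)
    refine (Set.toFinite ({v, v * el s} : Set (FG n))).subset ?_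
    intro x hx
    simp only [Set.mem_ofPred_eq] at hx
    by_cases h1 : x ∈ Sh v s
    · have h2 : x * el t ∉ Sh v s := fun h => hx ⟨fun _ => h1, fun _ => h⟩
      have h3 : (x * el t) * el (op t) ∈ Sh v s := by
        rw [el_op, mul_inv_cancel_right]
        exact h1
      obtain ⟨h4, h5⟩ := hent v (x * el t) s (op t) h2 h3
      right
      have h6 : x = v * el (op t) := by
        rw [el_op, ← h4, mul_inv_cancel_right]
      rw [h6, h5]
      rfl
    · have h2 : x * el t ∈ Sh v s := by
        by_contra h
        exact hx ⟨fun h' => absurd h' h, fun h' => absurd h' h1⟩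
      left
      exact (hent v x s t h1 h2).1

end Run7.h842.NF
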