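import Pool.Agent.Run7.h41.NF.Iface

set_option autoImplicit false

/-!
# Project NF: shadows are connected (CON)
-/

namespace Run7.h842.NF

open Run7.h41.NF
open Run7.h955 (Ev Thru Ins am cj)

theorem t_CON : S_CON := by
  intro n A v s h
  have key : ∀ L : List (Lt n), FreeGroup.IsReduced L → L.head? = some s →
      (v * FreeGroup.mk L ∈ A ↔ v * el s ∈ A) := by
    intro L
    induction L using List.reverseRecOn with
    | nil => intro _ h0; simp at h0
    | append_singleton L t ih =>
      intro hr hh
      have hmem : ∀ K : List (Lt n), FreeGroup.IsReduced K → K.head? = some s →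
          v * FreeGroup.mk K ∈ Sh v s := by
        intro K hK hK2
        show (v⁻¹ * (v * FreeGroup.mk K)).toWord.head? = some s
        rw [inv_mul_cancel_left, FreeGroup.toWord_mk, hK.reduce_eq]
        exact hK2
      rcases L.eq_nil_or_concat' with hL | ⟨K, u, hL⟩
      · subst hL
        simp only [List.nil_append, List.head?_cons, Option.some.injEq] at hh
        subst hh
        rfl
      · have hLr : FreeGroup.IsReduced L := by
          have := hr
          unfold FreeGroup.IsReduced at this ⊢
          exact this.left_of_append
        have hLne : L ≠ [] := by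
          rw [hL]; simp
        have hLh : L.head? = some s := by
          rw [List.head?_append_of_ne_nil _ hLne] at hh
          exact hh
        have e : v * FreeGroup.mk (L ++ [t]) = v * FreeGroup.mk L * el t := by
          rw [mul_assoc]
          simp [el, FreeGroup.mul_mk]
        have h1 := hmem L hLr hLh
        have h2 := hmem _ hr hh
        rw [e] at h2 ⊢
        rw [h _ h1 t h2]
        exact ih hLr hLh
  have key2 : ∀ y ∈ Sh v s, (y ∈ A ↔ v * el s ∈ A) := by
    intro y hy
    have h1 := key (v⁻¹ * y).toWord FreeGroup.isReduced_toWord hy
    rwa [FreeGroup.mk_toWord, mul_inv_cancel_left] at h1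
  by_cases hA : v * el s ∈ A
  · left
    intro y hy
    exact (key2 y hy).2 hA
  · right
    intro y hy hyA
    exact hA ((key2 y hy).1 hyA)

end Run7.h842.NF
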